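import Pool.Agent.H518R3.RD.Defs

/-!
MAT: finite matrix units over a corner generated by one self-adjoint operator.
-/

set_option autoImplicit false

open scoped ComplexOrder InnerProductSpace Topology
open Filter

noncomputable section

namespace Pool.Agent.H518R3.RD.T_MAT

open H759R2.Kad H710R2.DP Pool.Agent.H518R3.RD

variable {H : Type} [NormedAddCommGroup H] [InnerProductSpace ℂ H] [CompleteSpace H]

theorem smul_mem (M : VonNeumannAlgebra H) (c : ℂ) {x : H →L[ℂ] H} (h : x ∈ M) : c • x ∈ M :=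
  M.toStarSubalgebra.smul_mem h c

theorem norm_pr {e : H →L[ℂ] H} (h : IsPr e) : ‖e‖ ≤ 1 := by
  have h1 : ‖e‖ * ‖e‖ = ‖e‖ := by
    rw [← CStarRing.norm_star_mul_self, h.1, h.2]
  nlinarith [norm_nonneg e]

theorem mul_pr {v e : H →L[ℂ] H} (he : IsPr e) (h : star v * v = e) : v * e = v := by
  have h1 : star (v * e - v) * (v * e - v) = 0 := by
    rw [star_sub, star_mul, he.1]
    have h2 : (e * star v - star v) * (v * e - v) =
        e * (star v * v) * e - e * (star v * v) - (star v * v) * e + star v * v := by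
      noncomm_ring
    rw [h2, h]
    simp only [he.2]
    abel
  have h3 := (CStarRing.star_mul_self_eq_zero_iff _).1 h1
  exact sub_eq_zero.1 h3

theorem norm_V {v e : H →L[ℂ] H} (he : IsPr e) (h : star v * v = e) : ‖v‖ ≤ 1 := by
  have h1 : ‖v‖ * ‖v‖ = ‖e‖ := by
    rw [← CStarRing.norm_star_mul_self, h]
  have h2 := norm_pr he
  nlinarith [norm_nonneg v]

/-- the data, indexed by the natural numbers -/
structure Sy (M : VonNeumannAlgebra H) (z e h : H →L[ℂ] H) (n : ℕ) (V : ℕ → (H →L[ℂ] H)) :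
    Prop where
  cp : IsCP M z
  pe : IsPr e
  mem : ∀ i, V i ∈ M
  ini : ∀ i, i ≤ n → star (V i) * V i = e
  zero : ∀ i, n < i → V i = 0
  ort : ∀ i j, i ≠ j → star (V i) * V j = 0
  sum : ∑ i ∈ Finset.range (n + 1), V i * star (V i) = z
  hm : h ∈ M
  hs : star h = h
  hn : ‖h‖ ≤ 1
  eh : e * h = h

namespace Sy

variable {M : VonNeumannAlgebra H} {z e h : H →L[ℂ] H} {n : ℕ} {V : ℕ → (H →L[ℂ] H)}

theorem Ve (S : Sy M z e h n V) (i : ℕ) : V i * e = V i := by
  rcases le_or_gt i n with hi | hi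
  · exact mul_pr S.pe (S.ini i hi)
  · rw [S.zero i hi, zero_mul]

theorem eV (S : Sy M z e h n V) (i : ℕ) : e * star (V i) = star (V i) := by
  have := congrArg star (S.Ve i)
  rwa [star_mul, S.pe.1] at this

theorem he (S : Sy M z e h n V) : h * e = h := by
  have := congrArg star S.eh
  rwa [star_mul, S.pe.1, S.hs] at this

/-- the projections -/
def E (V : ℕ → (H →L[ℂ] H)) (i : ℕ) : H →L[ℂ] H := V i * star (V i)

theorem VVV (S : Sy M z e h n V) (i : ℕ) : E V i * V i = V i := by
  unfold E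
  rcases le_or_gt i n with hi | hi
  · rw [mul_assoc, S.ini i hi, S.Ve]
  · rw [S.zero i hi, mul_zero]

theorem star_E (i : ℕ) : star (E V i) = E V i := by
  unfold E
  rw [star_mul, star_star]

theorem VEs (S : Sy M z e h n V) (i : ℕ) : star (V i) * E V i = star (V i) := by
  have := congrArg star (S.VVV i)
  rwa [star_mul, star_E] at this

theorem EVz (S : Sy M z e h n V) {i j : ℕ} (hij : i ≠ j) : E V i * V j = 0 := by
  unfold E
  rw [mul_assoc, S.ort i j hij, mul_zero]

theorem VEz (S : Sy M z e h n V) {i j : ℕ} (hij : i ≠ j) : star (V i) * E V j = 0 := by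
  unfold E
  rw [← mul_assoc, S.ort i j hij, zero_mul]

theorem pr_E (S : Sy M z e h n V) (i : ℕ) : IsPr (E V i) := by
  refine ⟨star_E i, ?_⟩
  nth_rewrite 2 [E]
  rw [← mul_assoc, S.VVV]
  rfl

theorem ort_E (S : Sy M z e h n V) {i j : ℕ} (hij : i ≠ j) : E V i * E V j = 0 := by
  nth_rewrite 2 [E]
  rw [← mul_assoc, S.EVz hij, zero_mul]

theorem zV (S : Sy M z e h n V) (i : ℕ) : z * V i = V i := by
  rw [← S.sum, Finset.sum_mul]
  rcases le_or_gt i n with hi | hi
  · rw [Finset.sum_eq_single i]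
    · exact S.VVV i
    · intro j _ hj
      exact S.EVz hj
    · intro h
      exact absurd (Finset.mem_range.2 (by omega)) h
  · rw [S.zero i hi]
    simp

theorem mem_E (S : Sy M z e h n V) (i : ℕ) : E V i ∈ M :=
  mul_mem (S.mem i) (star_mem (S.mem i))

/-- the blocks -/
def a (V : ℕ → (H →L[ℂ] H)) (h : H →L[ℂ] H) (i : ℕ) : H →L[ℂ] H :=
  if i = 0 then (3 / 4 : ℂ) • E V 0 + (1 / 4 : ℂ) • (V 0 * h * star (V 0)) else E V i

theorem a_zero (h : H →L[ℂ] H) :
    a V h 0 = (3 / 4 : ℂ) • E V 0 + (1 / 4 : ℂ) • (V 0 * h * star (V 0)) := if_pos rfl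

theorem a_pos (h : H →L[ℂ] H) {i : ℕ} (hi : i ≠ 0) : a V h i = E V i := if_neg hi

theorem mem_a (S : Sy M z e h n V) (i : ℕ) : a V h i ∈ M := by
  by_cases hi : i = 0
  · subst hi
    rw [a_zero]
    exact add_mem (smul_mem M _ (S.mem_E 0))
      (smul_mem M _ (mul_mem (mul_mem (S.mem 0) S.hm) (star_mem (S.mem 0))))
  · rw [a_pos h hi]
    exact S.mem_E i

theorem star_a (S : Sy M z e h n V) (i : ℕ) : star (a V h i) = a V h i := by
  by_cases hi : i = 0
  · subst hi
    rw [a_zero, star_add, star_smul, star_smul, star_E, star_mul, star_mul, star_star, S.hs,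
      mul_assoc]
    congr 2
    · simp
    · simp
  · rw [a_pos h hi, star_E]

theorem E_a (S : Sy M z e h n V) (i : ℕ) : E V i * a V h i = a V h i := by
  by_cases hi : i = 0
  · subst hi
    rw [a_zero, mul_add, mul_smul_comm, mul_smul_comm, (S.pr_E 0).2, ← mul_assoc, ← mul_assoc,
      S.VVV]
  · rw [a_pos h hi, (S.pr_E i).2]

theorem norm_VhV (S : Sy M z e h n V) : ‖V 0 * h * star (V 0)‖ ≤ 1 := by
  have h1 := norm_V S.pe (S.ini 0 (Nat.zero_le n))
  have h2 : ‖star (V 0)‖ ≤ 1 := by rw [norm_star]; exact h1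
  calc ‖V 0 * h * star (V 0)‖ ≤ ‖V 0 * h‖ * ‖star (V 0)‖ := norm_mul_le _ _
    _ ≤ (‖V 0‖ * ‖h‖) * ‖star (V 0)‖ := by gcongr; exact norm_mul_le _ _
    _ ≤ (1 * 1) * 1 := by
      have := S.hn
      gcongr
    _ = 1 := by norm_num

theorem norm_a (S : Sy M z e h n V) (i : ℕ) : ‖a V h i‖ ≤ 1 := by
  by_cases hi : i = 0
  · subst hi
    rw [a_zero]
    have h1 := norm_pr (S.pr_E 0)
    have h2 := S.norm_VhV
    calc ‖(3 / 4 : ℂ) • E V 0 + (1 / 4 : ℂ) • (V 0 * h * star (V 0))‖
        ≤ ‖(3 / 4 : ℂ) • E V 0‖ + ‖(1 / 4 : ℂ) • (V 0 * h * star (V 0))‖ := norm_add_le _ _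
      _ = (3 / 4) * ‖E V 0‖ + (1 / 4) * ‖V 0 * h * star (V 0)‖ := by
        rw [norm_smul, norm_smul]
        norm_num
      _ ≤ 1 := by linarith
  · rw [a_pos h hi]
    exact norm_pr (S.pr_E i)

theorem low_a (S : Sy M z e h n V) (i : ℕ) (ξ : H) (hξ : E V i ξ = ξ) :
    1 / 2 * ‖ξ‖ ≤ ‖a V h i ξ‖ := by
  by_cases hi : i = 0
  · subst hi
    rw [a_zero]
    have h1 : ((3 / 4 : ℂ) • E V 0 + (1 / 4 : ℂ) • (V 0 * h * star (V 0))) ξ =
        (3 / 4 : ℂ) • ξ + (1 / 4 : ℂ) • ((V 0 * h * star (V 0)) ξ) := by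
      rw [add_apply, smul_apply,
        smul_apply, hξ]
    rw [h1]
    have h2 : ‖(V 0 * h * star (V 0)) ξ‖ ≤ 1 * ‖ξ‖ :=
      (ContinuousLinearMap.le_opNorm _ _).trans
        (mul_le_mul_of_nonneg_right S.norm_VhV (norm_nonneg _))
    have h3 : ‖(3 / 4 : ℂ) • ξ‖ = 3 / 4 * ‖ξ‖ := by rw [norm_smul]; norm_num
    have h4 : ‖(1 / 4 : ℂ) • ((V 0 * h * star (V 0)) ξ)‖ =
        1 / 4 * ‖(V 0 * h * star (V 0)) ξ‖ := by rw [norm_smul]; norm_num
    have h5 := norm_sub_le ((3 / 4 : ℂ) • ξ + (1 / 4 : ℂ) • ((V 0 * h * star (V 0)) ξ))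
      ((1 / 4 : ℂ) • ((V 0 * h * star (V 0)) ξ))
    rw [add_sub_cancel_right, h3, h4] at h5
    linarith
  · rw [a_pos h hi, hξ]
    linarith [norm_nonneg ξ]

theorem a_big (S : Sy M z e h n V) {i : ℕ} (hi : n < i) : a V h i = 0 := by
  rw [a_pos h (by omega), E, S.zero i hi, zero_mul]

/-- the first generator -/
def A (V : ℕ → (H →L[ℂ] H)) (h : H →L[ℂ] H) (n : ℕ) : H →L[ℂ] H :=
  ∑ i ∈ Finset.range (n + 1), ((1 / 4 : ℂ) ^ i) • a V h i

/-- the second generator -/
def B (V : ℕ → (H →L[ℂ] H)) (n : ℕ) : H →L[ℂ] H :=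
  ∑ i ∈ Finset.range n, (V i * star (V (i + 1)) + V (i + 1) * star (V i))

theorem hasSum_A (S : Sy M z e h n V) :
    HasSum (fun i => ((1 / 4 : ℂ) ^ i) • a V h i) (A V h n) := by
  apply hasSum_sum_of_ne_finset_zero
  intro i hi
  rw [S.a_big (by rw [Finset.mem_range] at hi; omega), smul_zero]

theorem mem_A (S : Sy M z e h n V) : A V h n ∈ M :=
  sum_mem fun i _ => smul_mem M _ (S.mem_a i)

theorem mem_B (S : Sy M z e h n V) : B V n ∈ M :=
  sum_mem fun i _ => add_mem (mul_mem (S.mem i) (star_mem (S.mem (i + 1))))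
    (mul_mem (S.mem (i + 1)) (star_mem (S.mem i)))

theorem star_A (S : Sy M z e h n V) : star (A V h n) = A V h n := by
  unfold A
  rw [star_sum]
  refine Finset.sum_congr rfl fun i _ => ?_
  rw [star_smul, S.star_a]
  congr 1
  simp

theorem star_B : star (B V n) = B V n := by
  unfold B
  rw [star_sum]
  refine Finset.sum_congr rfl fun i _ => ?_
  rw [star_add, star_mul, star_mul, star_star, star_star, add_comm]

theorem zE (S : Sy M z e h n V) (i : ℕ) : z * E V i = E V i := by
  unfold E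
  rw [← mul_assoc, S.zV]

theorem zA (S : Sy M z e h n V) : z * A V h n = A V h n := by
  unfold A
  rw [Finset.mul_sum]
  refine Finset.sum_congr rfl fun i _ => ?_
  rw [mul_smul_comm, ← S.E_a i, ← mul_assoc, S.zE]

theorem zB (S : Sy M z e h n V) : z * B V n = B V n := by
  unfold B
  rw [Finset.mul_sum]
  refine Finset.sum_congr rfl fun i _ => ?_
  rw [mul_add, ← mul_assoc, ← mul_assoc, S.zV, S.zV]

theorem EBE (S : Sy M z e h n V) {i : ℕ} (hi : i < n) :
    E V i * B V n * E V (i + 1) = V i * star (V (i + 1)) := by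
  unfold B
  rw [Finset.mul_sum, Finset.sum_mul, Finset.sum_eq_single i]
  · rw [mul_add, add_mul]
    have h1 : E V i * (V i * star (V (i + 1))) * E V (i + 1) = V i * star (V (i + 1)) := by
      rw [← mul_assoc, S.VVV, mul_assoc, S.VEs]
    have h2 : E V i * (V (i + 1) * star (V i)) * E V (i + 1) = 0 := by
      rw [← mul_assoc, S.EVz (by omega), zero_mul, zero_mul]
    rw [h1, h2, add_zero]
  · intro j _ hj
    rw [mul_add, add_mul]
    have h1 : E V i * (V j * star (V (j + 1))) * E V (i + 1) = 0 := by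
      rw [← mul_assoc, S.EVz (by omega), zero_mul, zero_mul]
    have h2 : E V i * (V (j + 1) * star (V j)) * E V (i + 1) = 0 := by
      rw [mul_assoc, mul_assoc]
      by_cases h3 : j = i + 1
      · rw [← mul_assoc, S.EVz (by omega), zero_mul]
      · rw [S.VEz h3, mul_zero, mul_zero]
    rw [h1, h2, add_zero]
  · intro h1
    exact absurd (Finset.mem_range.2 hi) h1

theorem EBE' (S : Sy M z e h n V) {i : ℕ} (hi : i < n) :
    E V (i + 1) * B V n * E V i = V (i + 1) * star (V i) := by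
  have := congrArg star (S.EBE hi)
  rw [star_mul, star_mul, star_E, star_E, star_B, star_mul, star_star] at this
  rw [mul_assoc, this]

end Sy

open Sy in
theorem gen_of_Sy (hSPB : R_SPB) {M : VonNeumannAlgebra H} {z e h : H →L[ℂ] H} {n : ℕ}
    {V : ℕ → (H →L[ℂ] H)} (S : Sy M z e h n V)
    (hc : ∀ x ∈ M, e * x * e ∈ cc ({h, e} : Set (H →L[ℂ] H))) : Gen M z := by
  refine ⟨A V h n, B V n, S.mem_A, S.mem_B, S.star_A, star_B, S.zA, S.zB, ?_⟩
  intro x hx s hs
  have hsA : Commute s (A V h n) := (hs _ (by simp)).symm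
  have hsB : Commute s (B V n) := (hs _ (by simp)).symm
  have key := hSPB H (E V) (a V h) (A V h n) S.pr_E (fun i j hij => S.ort_E hij)
    (fun i => ⟨S.star_a i, S.E_a i, S.norm_a i⟩) (fun i ξ hξ => S.low_a i ξ hξ) S.hasSum_A s hsA
  have hsE : ∀ i, Commute s (E V i) := fun i => (key i).1
  have hsh : Commute s (V 0 * h * star (V 0)) := by
    have h1 : V 0 * h * star (V 0) = (4 : ℂ) • a V h 0 - (3 : ℂ) • E V 0 := by
      rw [a_zero, smul_add, smul_smul, smul_smul]
      norm_num
    rw [h1]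
    have hsa : Commute s (a V h 0) := (key 0).2
    exact (hsa.smul_right _).sub_right ((hsE 0).smul_right _)
  have hT : ∀ i, i < n → Commute s (V i * star (V (i + 1))) := by
    intro i hi
    rw [← S.EBE hi]
    exact ((hsE i).mul_right hsB).mul_right (hsE (i + 1))
  have hT' : ∀ i, i < n → Commute s (V (i + 1) * star (V i)) := by
    intro i hi
    rw [← S.EBE' hi]
    exact ((hsE (i + 1)).mul_right hsB).mul_right (hsE i)
  have hL : ∀ i, i ≤ n → Commute s (V i * star (V 0)) := by
    intro i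
    induction i with
    | zero => intro _; exact hsE 0
    | succ i ih =>
      intro hi
      have h1 : V (i + 1) * star (V 0) = (V (i + 1) * star (V i)) * (V i * star (V 0)) := by
        rw [mul_assoc, ← mul_assoc (star (V i)), S.ini i (by omega), ← mul_assoc, S.Ve]
      rw [h1]
      exact (hT' i (by omega)).mul_right (ih (by omega))
  have hR : ∀ i, i ≤ n → Commute s (V 0 * star (V i)) := by
    intro i
    induction i with
    | zero => intro _; exact hsE 0
    | succ i ih =>
      intro hi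
      have h1 : V 0 * star (V (i + 1)) = (V 0 * star (V i)) * (V i * star (V (i + 1))) := by
        rw [mul_assoc, ← mul_assoc (star (V i)), S.ini i (by omega), ← mul_assoc, S.Ve]
      rw [h1]
      exact (ih (by omega)).mul_right (hT i (by omega))
  -- the compression of `s`
  have h0 := S.ini 0 (Nat.zero_le n)
  set s' : H →L[ℂ] H := star (V 0) * s * V 0 with hs'
  have hsV : s * V 0 = V 0 * s' := by
    calc s * V 0 = s * (E V 0 * V 0) := by rw [S.VVV]
      _ = (E V 0 * s) * V 0 := by rw [← mul_assoc, (hsE 0).eq]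
      _ = V 0 * s' := by
        rw [hs']
        unfold E
        noncomm_ring
  have hVs : star (V 0) * s = s' * star (V 0) := by
    calc star (V 0) * s = (star (V 0) * E V 0) * s := by rw [S.VEs]
      _ = star (V 0) * (s * E V 0) := by rw [mul_assoc, (hsE 0).eq]
      _ = s' * star (V 0) := by
        rw [hs']
        unfold E
        noncomm_ring
  have hVh : V 0 * h = (V 0 * h * star (V 0)) * V 0 := by
    rw [mul_assoc (V 0 * h), h0, mul_assoc, S.he]
  have hhV : h * star (V 0) = star (V 0) * (V 0 * h * star (V 0)) := by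
    rw [mul_assoc (V 0), ← mul_assoc (star (V 0)), h0, ← mul_assoc, S.eh]
  have hs'h : s' * h = h * s' := by
    calc s' * h = star (V 0) * s * (V 0 * h) := by rw [hs']; noncomm_ring
      _ = star (V 0) * (s * (V 0 * h * star (V 0))) * V 0 := by
        conv_lhs => rw [hVh]
        noncomm_ring
      _ = star (V 0) * ((V 0 * h * star (V 0)) * s) * V 0 := by rw [hsh.eq]
      _ = (star (V 0) * (V 0 * h * star (V 0))) * s * V 0 := by noncomm_ring
      _ = h * s' := by rw [← hhV, hs']; noncomm_ring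
  have hs'e1 : s' * e = s' := by rw [hs', mul_assoc, S.Ve]
  have hs'e2 : e * s' = s' := by rw [hs', ← mul_assoc, ← mul_assoc, S.eV]
  have hmem : s' ∈ Set.centralizer ({h, e} : Set (H →L[ℂ] H)) := by
    intro m hm
    rcases hm with rfl | hm
    · exact hs'h.symm
    · rw [Set.mem_singleton_iff] at hm
      subst hm
      rw [hs'e1, hs'e2]
  have hy : ∀ y ∈ M, Commute s (V 0 * (e * y * e) * star (V 0)) := by
    intro y hyM
    have h1 : s' * (e * y * e) = (e * y * e) * s' := hc y hyM s' hmem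
    show s * (V 0 * (e * y * e) * star (V 0)) = (V 0 * (e * y * e) * star (V 0)) * s
    calc s * (V 0 * (e * y * e) * star (V 0)) = (s * V 0) * (e * y * e) * star (V 0) := by
          noncomm_ring
      _ = V 0 * (s' * (e * y * e)) * star (V 0) := by rw [hsV]; noncomm_ring
      _ = V 0 * (e * y * e) * (s' * star (V 0)) := by rw [h1]; noncomm_ring
      _ = (V 0 * (e * y * e) * star (V 0)) * s := by rw [← hVs]; noncomm_ring
  have hEE : ∀ i j, i ≤ n → j ≤ n → Commute s (E V i * x * E V j) := by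
    intro i j hi hj
    have h1 : E V i * x * E V j = (V i * star (V 0)) *
        (V 0 * (e * (star (V i) * x * V j) * e) * star (V 0)) * (V 0 * star (V j)) := by
      have h2 : (V i * star (V 0)) *
          (V 0 * (e * (star (V i) * x * V j) * e) * star (V 0)) * (V 0 * star (V j)) =
          V i * (star (V 0) * V 0) * e * star (V i) * x * V j * e * (star (V 0) * V 0) *
            star (V j) := by noncomm_ring
      rw [h2, h0, S.Ve, S.Ve]
      have h3 : V i * star (V i) * x * V j * e * e * star (V j) =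
          V i * star (V i) * x * ((V j * e) * e) * star (V j) := by noncomm_ring
      rw [h3, S.Ve, S.Ve]
      unfold E
      noncomm_ring
    rw [h1]
    exact ((hL i hi).mul_right (hy _ (mul_mem (mul_mem (star_mem (S.mem i)) hx) (S.mem j)))).mul_right
      (hR j hj)
  have hzx : z * x = ∑ i ∈ Finset.range (n + 1), ∑ j ∈ Finset.range (n + 1),
      E V i * x * E V j := by
    have h1 : z * x = z * x * z := by
      rw [mul_assoc, ← S.cp.2.2 x hx, ← mul_assoc, S.cp.1.2]
    rw [h1]
    nth_rewrite 1 [← S.sum]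
    rw [Finset.sum_mul, Finset.sum_mul]
    refine Finset.sum_congr rfl fun i _ => ?_
    rw [← S.sum, Finset.mul_sum]
    rfl
  have hfin : Commute s (z * x) := by
    rw [hzx]
    refine Commute.sum_right _ _ _ fun i hi => Commute.sum_right _ _ _ fun j hj => ?_
    exact hEE i j (by rw [Finset.mem_range] at hi; omega) (by rw [Finset.mem_range] at hj; omega)
  exact hfin.eq

end Pool.Agent.H518R3.RD.T_MAT

namespace Pool.Agent.H518R3.RD.T_MAT

open H759R2.Kad H710R2.DP Pool.Agent.H518R3.RD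

theorem r_MAT (hSPB : R_SPB) : R_MAT := by
  intro H _ _ _ M z e h n V hz he heM hV hort hsum hh hhs hhn heh hc
  let V' : ℕ → (H →L[ℂ] H) := fun i => if hi : i < n + 1 then V ⟨i, hi⟩ else 0
  have hV' : ∀ i (hi : i < n + 1), V' i = V ⟨i, hi⟩ := fun i hi => dif_pos hi
  have hV0 : ∀ i, ¬ i < n + 1 → V' i = 0 := fun i hi => dif_neg hi
  refine gen_of_Sy hSPB (h := h) (e := e) (n := n) (V := V') ⟨hz, he, ?_, ?_, ?_, ?_, ?_, hh, hhs,
    hhn, heh⟩ hc
  · intro i
    by_cases hi : i < n + 1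
    · rw [hV' i hi]; exact (hV _).1
    · rw [hV0 i hi]; exact zero_mem _
  · intro i hi
    rw [hV' i (by omega)]
    exact (hV _).2
  · intro i hi
    exact hV0 i (by omega)
  · intro i j hij
    by_cases hi : i < n + 1
    · by_cases hj : j < n + 1
      · rw [hV' i hi, hV' j hj]
        exact hort _ _ fun h => hij (Fin.mk.inj h)
      · rw [hV0 j hj, mul_zero]
    · rw [hV0 i hi, star_zero, zero_mul]
  · rw [← hsum, ← Fin.sum_univ_eq_sum_range (fun i => V' i * star (V' i)) (n + 1)]
    refine Finset.sum_congr rfl fun i _ => ?_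
    rw [hV' i i.2]

end Pool.Agent.H518R3.RD.T_MAT
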